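import Mathlib
import Pool.Agent.H.MP_639dfe_co.B

set_option autoImplicit false

namespace Pool.Agent.Results.MP_639dfe_co.Wqo
open Pool.Agent.H.MP_639dfe_co

/-- The class `C_6` is well-quasi-ordered by the subconfiguration order. -/
theorem result (S : ℕ → Finset Pt) (h : ∀ n, InC 6 (S n)) : ∃ i j, i < j ∧ Sub (S i) (S j) :=
  main S h

end Pool.Agent.Results.MP_639dfe_co.Wqo
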